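import Pool.Agent.R357.LS.Trig

/-!
The moment generating function of the arcsine law is the Bessel function `I_0`.
-/

set_option autoImplicit false

open MeasureTheory Set Filter
open scoped Topology

namespace Pool.Agent.R357.LS

/-- the Bessel function `I_0` -/
noncomputable def I0 (t : ℝ) : ℝ := ∑' j : ℕ, (t / 2) ^ (2 * j) / ((j.factorial : ℝ)) ^ 2

lemma ee_eq (j : ℕ) : ee j = (2 * Real.pi)⁻¹ * ∫ x in (0:ℝ)..(2 * Real.pi), Real.cos x ^ j := by
  unfold ee
  rw [integral_Icc_eq_integral_Ioc, ← intervalIntegral.integral_of_le zero_le_one,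
    intervalIntegral.integral_comp_mul_left (fun x => Real.cos x ^ j) (by have := Real.pi_pos; positivity)]
  simp

lemma ee_zero : ee 0 = 1 := by
  unfold ee; simp

lemma ee_one : ee 1 = 0 := by
  rw [ee_eq]
  simp

lemma ee_rec (j : ℕ) : ee (j + 2) = (j + 1) / (j + 2) * ee j := by
  rw [ee_eq, ee_eq, integral_cos_pow]
  simp
  ring

lemma ee_odd (j : ℕ) : ee (2 * j + 1) = 0 := by
  induction j with
  | zero => exact ee_one
  | succ j ih =>
    rw [show 2 * (j + 1) + 1 = (2 * j + 1) + 2 by ring, ee_rec, ih, mul_zero]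

lemma ee_even (j : ℕ) : ee (2 * j) / ((2 * j).factorial : ℝ) = (1 / 2) ^ (2 * j) / ((j.factorial : ℝ)) ^ 2 := by
  induction j with
  | zero => simp [ee_zero]
  | succ j ih =>
    have h1 : (((2 * j).factorial : ℕ) : ℝ) ≠ 0 := by exact_mod_cast (Nat.factorial_pos _).ne'
    have h2 : ((j.factorial : ℕ) : ℝ) ≠ 0 := by exact_mod_cast (Nat.factorial_pos _).ne'
    rw [show 2 * (j + 1) = 2 * j + 2 by ring, ee_rec, Nat.factorial_succ (2 * j + 1), Nat.factorial_succ (2 * j),
      Nat.factorial_succ j]
    rw [div_eq_div_iff (by positivity) (by positivity)] at ih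
    push_cast
    rw [div_eq_div_iff (by positivity) (by positivity)]
    have : (1 / 2 : ℝ) ^ (2 * j + 2) = (1 / 2) ^ (2 * j) / 4 := by rw [pow_add]; ring
    rw [this]
    field_simp
    linear_combination (4 * ((j:ℝ) + 1)) * ih

lemma mgf_cos (t : ℝ) : ∫ w in Icc (0:ℝ) 1, Real.exp (t * Real.cos (2 * Real.pi * w)) = I0 t := by
  have h1 : HasSum (fun n : ℕ => ∫ w in Icc (0:ℝ) 1, (t * Real.cos (2 * Real.pi * w)) ^ n / (n.factorial : ℝ))
      (∫ w in Icc (0:ℝ) 1, Real.exp (t * Real.cos (2 * Real.pi * w))) := by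
    apply hasSum_integral_of_dominated_convergence (fun n _ => |t| ^ n / (n.factorial : ℝ))
    · intro n
      exact (by fun_prop : Continuous fun w => (t * Real.cos (2 * Real.pi * w)) ^ n / (n.factorial : ℝ)).aestronglyMeasurable
    · intro n
      refine Eventually.of_forall fun w => ?_
      rw [norm_div, norm_pow, Real.norm_eq_abs, Real.norm_eq_abs, abs_mul, Nat.abs_cast]
      gcongr
      exact mul_le_of_le_one_right (abs_nonneg _) (Real.abs_cos_le_one _)
    · exact Eventually.of_forall fun w => Real.summable_pow_div_factorial |t|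
    · exact integrable_const _
    · refine Eventually.of_forall fun w => ?_
      have := NormedSpace.expSeries_div_hasSum_exp (t * Real.cos (2 * Real.pi * w))
      rw [← Real.exp_eq_exp_ℝ] at this
      exact this
  have h2 : ∀ n : ℕ, ∫ w in Icc (0:ℝ) 1, (t * Real.cos (2 * Real.pi * w)) ^ n / (n.factorial : ℝ) =
      t ^ n * (ee n / (n.factorial : ℝ)) := by
    intro n
    have : ∀ w : ℝ, (t * Real.cos (2 * Real.pi * w)) ^ n / (n.factorial : ℝ) =
        (t ^ n / (n.factorial : ℝ)) * Real.cos (2 * Real.pi * w) ^ n := by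
      intro w; rw [mul_pow]; ring
    simp_rw [this]
    rw [integral_const_mul]
    unfold ee
    ring
  simp_rw [h2] at h1
  have h3 : HasSum (fun j : ℕ => t ^ (2 * j) * (ee (2 * j) / ((2 * j).factorial : ℝ)))
      (∫ w in Icc (0:ℝ) 1, Real.exp (t * Real.cos (2 * Real.pi * w))) := by
    have hinj : Function.Injective (fun j : ℕ => 2 * j) := fun a b h => by
      simp only at h; omega
    have := (hinj.hasSum_iff (f := fun n : ℕ => t ^ n * (ee n / (n.factorial : ℝ)))
      (a := ∫ w in Icc (0:ℝ) 1, Real.exp (t * Real.cos (2 * Real.pi * w))) (by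
        intro n hn
        obtain ⟨j, hj⟩ : ∃ j, n = 2 * j + 1 := by
          refine ⟨n / 2, ?_⟩
          by_contra hc
          exact hn ⟨n / 2, by simp only; omega⟩
        rw [hj, ee_odd, zero_div, mul_zero])).2 h1
    exact this
  unfold I0
  rw [← h3.tsum_eq]
  congr 1
  funext j
  rw [ee_even, div_pow, div_pow, one_pow]
  ring

/-- the cumulants of the arcsine law, in terms of `I_0` -/
theorem kappa_cos (m : ℕ) : kappa m (fun w => Real.cos (2 * Real.pi * w)) =
    iteratedDeriv m (fun t => Real.log (I0 t)) 0 := by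
  unfold kappa
  simp_rw [mgf_cos]

end Pool.Agent.R357.LS
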