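import Mathlib

/-!
Cumulants of bounded random variables on `[0,1]` and their dependence on moments.
-/

set_option autoImplicit false

open MeasureTheory ProbabilityTheory Set Filter
open scoped Topology ContDiff

namespace Pool.Agent.R357.LS

/-- Lebesgue measure on `[0,1]` -/
noncomputable def mu : Measure ℝ := volume.restrict (Icc (0:ℝ) 1)

instance : IsProbabilityMeasure mu := ⟨by simp [mu]⟩

lemma log_iter {f g : ℝ → ℝ} (hf : ContDiff ℝ ∞ f) (hg : ContDiff ℝ ∞ g) (hf0 : ∀ t, 0 < f t)
    (hg0 : ∀ t, 0 < g t) {m : ℕ} (h : ∀ r ≤ m, iteratedDeriv r f 0 = iteratedDeriv r g 0) :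
    ∀ r ≤ m, iteratedDeriv r (fun t => Real.log (f t)) 0 = iteratedDeriv r (fun t => Real.log (g t)) 0 := by
  have key : ∀ {f : ℝ → ℝ}, ContDiff ℝ ∞ f → (∀ t, 0 < f t) → ∀ r : ℕ, iteratedDeriv (r + 1) f 0 =
      ∑ i ∈ Finset.range (r + 1), (r.choose i : ℝ) * iteratedDeriv i f 0 *
        iteratedDeriv (r - i + 1) (fun t => Real.log (f t)) 0 := by
    intro f hf hf0 r
    have hL : ContDiff ℝ ∞ (fun t => Real.log (f t)) := hf.log (fun t => (hf0 t).ne')
    have hL' : ContDiff ℝ ∞ (deriv (fun t => Real.log (f t))) := by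
      have : ContDiff ℝ (∞ + 1) (fun t => Real.log (f t)) := hL
      exact (contDiff_infty_iff_deriv.1 hL).2
    have e : deriv f = f * deriv (fun t => Real.log (f t)) := by
      funext t
      have hd : DifferentiableAt ℝ f t := (hf.differentiable (by norm_num)) t
      rw [Pi.mul_apply, deriv.log hd (hf0 t).ne']
      field_simp [(hf0 t).ne']
    rw [iteratedDeriv_succ', e, iteratedDeriv_mul ((hf.of_le (by exact_mod_cast le_top)).contDiffAt)
      ((hL'.of_le (by exact_mod_cast le_top)).contDiffAt)]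
    refine Finset.sum_congr rfl fun i _ => ?_
    rw [← iteratedDeriv_succ']
  intro r
  induction r using Nat.strong_induction_on with
  | _ r ih =>
    intro hr
    rcases r with _ | r
    · have := h 0 (Nat.zero_le _)
      simp only [iteratedDeriv_zero] at this ⊢
      rw [this]
    · have h1 := key hf hf0 r
      have h2 := key hg hg0 r
      rw [Finset.sum_range_succ'] at h1 h2
      have h3 : ∑ i ∈ Finset.range r, (r.choose (i + 1) : ℝ) * iteratedDeriv (i + 1) f 0 *
          iteratedDeriv (r - (i + 1) + 1) (fun t => Real.log (f t)) 0 =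
          ∑ i ∈ Finset.range r, (r.choose (i + 1) : ℝ) * iteratedDeriv (i + 1) g 0 *
          iteratedDeriv (r - (i + 1) + 1) (fun t => Real.log (g t)) 0 := by
        refine Finset.sum_congr rfl fun i hi => ?_
        rw [Finset.mem_range] at hi
        rw [h (i + 1) (by omega), ih (r - (i + 1) + 1) (by omega) (by omega)]
      have h4 := h (r + 1) hr
      have h5 := h 0 (Nat.zero_le _)
      simp only [Nat.choose_zero_right, Nat.cast_one, one_mul, Nat.sub_zero] at h1 h2
      rw [h1, h2, h3, h5] at h4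
      have h6 := add_left_cancel h4
      have h7 : iteratedDeriv 0 g 0 ≠ 0 := by rw [iteratedDeriv_zero]; exact (hg0 0).ne'
      exact mul_left_cancel₀ h7 h6

/-- the `m`-th cumulant of a random variable on `[0,1]` -/
noncomputable def kappa (m : ℕ) (X : ℝ → ℝ) : ℝ :=
  iteratedDeriv m (fun t => Real.log (∫ w in Icc (0:ℝ) 1, Real.exp (t * X w))) 0

lemma kappa_eq (m : ℕ) (X : ℝ → ℝ) : kappa m X = iteratedDeriv m (fun t => Real.log (mgf X mu t)) 0 := rfl

lemma int_exp {X : ℝ → ℝ} (hX : Continuous X) (t : ℝ) : Integrable (fun w => Real.exp (t * X w)) mu := by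
  unfold mu
  exact (by fun_prop : Continuous (fun w => Real.exp (t * X w))).continuousOn.integrableOn_Icc

lemma expSet {X : ℝ → ℝ} (hX : Continuous X) : integrableExpSet X mu = univ := by
  ext t
  simp only [mem_univ, iff_true]
  exact int_exp hX t

lemma mem_int {X : ℝ → ℝ} (hX : Continuous X) (t : ℝ) : t ∈ interior (integrableExpSet X mu) := by
  rw [expSet hX, interior_univ]; trivial

lemma mgf_smooth {X : ℝ → ℝ} (hX : Continuous X) : ContDiff ℝ ∞ (mgf X mu) := by
  rw [contDiff_iff_contDiffAt]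
  intro t
  exact (analyticAt_mgf (mem_int hX t)).contDiffAt

lemma mgf_positive {X : ℝ → ℝ} (hX : Continuous X) (t : ℝ) : 0 < mgf X mu t := mgf_pos (int_exp hX t)

lemma mgf_deriv {X : ℝ → ℝ} (hX : Continuous X) (n : ℕ) :
    iteratedDeriv n (mgf X mu) 0 = ∫ w in Icc (0:ℝ) 1, X w ^ n := by
  rw [iteratedDeriv_mgf_zero (mem_int hX 0) n]
  rfl

/-- If the moments of `Z` up to order `m` are the binomial convolutions of the moments of `X` and `Y`, then the
cumulants of `Z` up to order `m` are the sums of the cumulants of `X` and `Y`. -/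
lemma kappa_add {X Y Z : ℝ → ℝ} (hX : Continuous X) (hY : Continuous Y) (hZ : Continuous Z) {m : ℕ}
    (h : ∀ r ≤ m, ∫ w in Icc (0:ℝ) 1, Z w ^ r = ∑ i ∈ Finset.range (r + 1), (r.choose i : ℝ) *
      (∫ w in Icc (0:ℝ) 1, X w ^ i) * ∫ w in Icc (0:ℝ) 1, Y w ^ (r - i)) :
    kappa m Z = kappa m X + kappa m Y := by
  have hXs := mgf_smooth hX
  have hYs := mgf_smooth hY
  have h1 := log_iter (mgf_smooth hZ) (hXs.mul hYs) (mgf_positive hZ)
    (fun t => mul_pos (mgf_positive hX t) (mgf_positive hY t)) (m := m) (by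
      intro r hr
      have e : (fun t => mgf X mu t * mgf Y mu t) = mgf X mu * mgf Y mu := rfl
      rw [mgf_deriv hZ, h r hr, e, iteratedDeriv_mul ((hXs.of_le (by exact_mod_cast le_top)).contDiffAt)
        ((hYs.of_le (by exact_mod_cast le_top)).contDiffAt)]
      refine Finset.sum_congr rfl fun i _ => ?_
      rw [mgf_deriv hX, mgf_deriv hY]) m le_rfl
  rw [kappa_eq, kappa_eq, kappa_eq, h1]
  have e : (fun t => Real.log (mgf X mu t * mgf Y mu t)) =
      (fun t => Real.log (mgf X mu t)) + fun t => Real.log (mgf Y mu t) := by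
    funext t
    exact Real.log_mul (mgf_positive hX t).ne' (mgf_positive hY t).ne'
  rw [e, iteratedDeriv_add]
  · exact ((hXs.log (fun t => (mgf_positive hX t).ne')).of_le (by exact_mod_cast le_top)).contDiffAt
  · exact ((hYs.log (fun t => (mgf_positive hY t).ne')).of_le (by exact_mod_cast le_top)).contDiffAt

end Pool.Agent.R357.LS
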