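import Pool.Agent.R357.LS.Trig

/-!
The greedy sequence without short relations.
-/

set_option autoImplicit false

open MeasureTheory Set Filter
open scoped Topology

namespace Pool.Agent.R357.LS

lemma avoid (S : Finset ℤ) (N m : ℕ) : ∃ y : ℕ, N ≤ y ∧ y ≤ N + m * S.card ^ m ∧
    ∀ l : ℕ, 1 ≤ l → l ≤ m → ∀ b ∈ sums S m, (l : ℤ) * y ≠ b := by
  classical
  set F : Finset ℕ := ((Finset.Icc 1 m) ×ˢ (sums S m)).image (fun p => (p.2 / (p.1 : ℤ)).toNat) with hF
  have hcard : F.card ≤ m * S.card ^ m := by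
    refine Finset.card_image_le.trans ?_
    rw [Finset.card_product, Nat.card_Icc]
    simp only [Nat.add_sub_cancel]
    exact Nat.mul_le_mul_left _ (sums_card S m)
  have h1 : F.card < (Finset.Icc N (N + m * S.card ^ m)).card := by
    rw [Nat.card_Icc]; omega
  obtain ⟨y, hy, hyF⟩ := Finset.exists_mem_notMem_of_card_lt_card h1
  rw [Finset.mem_Icc] at hy
  refine ⟨y, hy.1, hy.2, ?_⟩
  intro l hl1 hl2 b hb he
  apply hyF
  rw [hF, Finset.mem_image]
  refine ⟨(l, b), ?_, ?_⟩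
  · simp only [Finset.mem_product, Finset.mem_Icc]
    exact ⟨⟨hl1, hl2⟩, hb⟩
  · simp only
    rw [← he, Int.mul_ediv_cancel_left _ (by omega)]
    simp

/-- the number of allowed terms in a relation -/
def lev (k c x : ℕ) : ℕ := Nat.findGreatest (fun m => (k + 1) * (m * c ^ m) ≤ x) k

lemma lev_spec (k c x : ℕ) : (k + 1) * (lev k c x * c ^ lev k c x) ≤ x :=
  Nat.findGreatest_spec (P := fun m => (k + 1) * (m * c ^ m) ≤ x) (m := 0) (Nat.zero_le k) (by simp)

lemma le_lev {k c x m : ℕ} (h : m ≤ k) (h2 : (k + 1) * (m * c ^ m) ≤ x) : m ≤ lev k c x :=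
  Nat.le_findGreatest h h2

/-- the next element -/
noncomputable def nxt (η : ℝ) (k : ℕ) (S : Finset ℤ) (x : ℕ) : ℕ :=
  (avoid S (⌈η * x⌉₊ + 1) (lev k S.card x)).choose

lemma nxt_spec (η : ℝ) (k : ℕ) (S : Finset ℤ) (x : ℕ) : ⌈η * x⌉₊ + 1 ≤ nxt η k S x ∧
    nxt η k S x ≤ ⌈η * x⌉₊ + 1 + lev k S.card x * S.card ^ (lev k S.card x) ∧
    ∀ l : ℕ, 1 ≤ l → l ≤ lev k S.card x → ∀ b ∈ sums S (lev k S.card x), (l : ℤ) * nxt η k S x ≠ b :=
  (avoid S (⌈η * x⌉₊ + 1) (lev k S.card x)).choose_spec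

/-- the states: the set `{0, ±a_i (i < k)}` and `a_k` -/
noncomputable def st (η : ℝ) : ℕ → Finset ℤ × ℕ
  | 0 => ({0}, 1)
  | k + 1 => (insert ((st η k).2 : ℤ) (insert (-((st η k).2 : ℤ)) (st η k).1),
      nxt η k (insert ((st η k).2 : ℤ) (insert (-((st η k).2 : ℤ)) (st η k).1)) (st η k).2)

/-- the sequence -/
noncomputable def aa (η : ℝ) (k : ℕ) : ℕ := (st η k).2

/-- the sets of previous elements -/
noncomputable def SS (η : ℝ) (k : ℕ) : Finset ℤ := (st η k).1

lemma SS_succ (η : ℝ) (k : ℕ) : SS η (k + 1) = insert (aa η k : ℤ) (insert (-(aa η k : ℤ)) (SS η k)) := rfl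

lemma aa_succ (η : ℝ) (k : ℕ) : aa η (k + 1) = nxt η k (SS η (k + 1)) (aa η k) := rfl

lemma SS_zero_mem (η : ℝ) (k : ℕ) : (0:ℤ) ∈ SS η k := by
  induction k with
  | zero => simp [SS, st]
  | succ k ih => rw [SS_succ, Finset.mem_insert, Finset.mem_insert]; exact Or.inr (Or.inr ih)

lemma SS_neg (η : ℝ) (k : ℕ) : ∀ z ∈ SS η k, -z ∈ SS η k := by
  induction k with
  | zero => simp [SS, st]
  | succ k ih =>
    intro z hz
    rw [SS_succ, Finset.mem_insert, Finset.mem_insert] at hz ⊢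
    rcases hz with rfl | rfl | h
    · exact Or.inr (Or.inl rfl)
    · exact Or.inl (by ring)
    · exact Or.inr (Or.inr (ih z h))

lemma SS_card (η : ℝ) (k : ℕ) : (SS η k).card ≤ 2 * k + 1 := by
  induction k with
  | zero => simp [SS, st]
  | succ k ih =>
    rw [SS_succ]
    have h1 := Finset.card_insert_le (aa η k : ℤ) (insert (-(aa η k : ℤ)) (SS η k))
    have h2 := Finset.card_insert_le (-(aa η k : ℤ)) (SS η k)
    omega

/-- the partial sums -/
noncomputable def Sn (a : ℕ → ℕ) (n : ℕ) (w : ℝ) : ℝ :=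
  ∑ k ∈ Finset.range n, Real.cos (2 * Real.pi * a k * w)

lemma Sn_mem (η : ℝ) (n : ℕ) : Sn (aa η) n ∈ T (SS η n : Set ℤ) := by
  induction n with
  | zero =>
    have : Sn (aa η) 0 = 0 := by funext w; simp [Sn]
    rw [this]; exact Submodule.zero_mem _
  | succ n ih =>
    have e : Sn (aa η) (n + 1) = Sn (aa η) n + fun w : ℝ => Real.cos (2 * Real.pi * ((aa η n : ℤ) : ℝ) * w) := by
      funext w
      simp only [Sn, Pi.add_apply]
      rw [Finset.sum_range_succ, Int.cast_natCast]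
    rw [e]
    apply Submodule.add_mem
    · refine T_mono ?_ ih
      rw [SS_succ]
      intro z hz
      rw [Finset.mem_coe] at hz ⊢
      exact Finset.mem_insert_of_mem (Finset.mem_insert_of_mem hz)
    · apply T_basic
      rw [SS_succ, Finset.mem_coe]
      exact Finset.mem_insert_self _ _

variable {η : ℝ}

lemma aa_lower (k : ℕ) : η * aa η k + 1 ≤ aa η (k + 1) := by
  obtain ⟨h1, -, -⟩ := nxt_spec η k (SS η (k + 1)) (aa η k)
  rw [← aa_succ] at h1
  have h2 := Nat.le_ceil (η * aa η k)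
  have h3 : ((⌈η * aa η k⌉₊ + 1 : ℕ) : ℝ) ≤ aa η (k + 1) := by exact_mod_cast h1
  push_cast at h3
  linarith

lemma aa_lt (hη : 1 < η) (k : ℕ) : aa η k < aa η (k + 1) := by
  have h := aa_lower (η := η) k
  have h2 : (0:ℝ) ≤ aa η k := by positivity
  have h3 : (aa η k : ℝ) < aa η (k + 1) := by nlinarith
  exact_mod_cast h3

lemma aa_strictMono (hη : 1 < η) : StrictMono (aa η) := strictMono_nat_of_lt_succ (aa_lt hη)

lemma aa_ge (hη : 1 < η) (k : ℕ) : k + 1 ≤ aa η k := by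
  induction k with
  | zero => simp [aa, st]
  | succ k ih => have := aa_lt hη k; omega

lemma aa_exp (hη : 1 < η) (k : ℕ) : η ^ k ≤ aa η k := by
  induction k with
  | zero => simp [aa, st]
  | succ k ih =>
    have h := aa_lower (η := η) k
    rw [pow_succ]
    nlinarith

/-- the level at step `k` -/
noncomputable def lv (η : ℝ) (k : ℕ) : ℕ := lev k (SS η (k + 1)).card (aa η k)

lemma aa_upper (hη : 1 < η) (k : ℕ) : (aa η (k + 1) : ℝ) ≤ η * aa η k + 2 + aa η k / (k + 1) := by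
  obtain ⟨-, h1, -⟩ := nxt_spec η k (SS η (k + 1)) (aa η k)
  rw [← aa_succ] at h1
  have h2 := Nat.ceil_lt_add_one (show 0 ≤ η * aa η k by positivity)
  have h3 := lev_spec k (SS η (k + 1)).card (aa η k)
  set c := lev k (SS η (k + 1)).card (aa η k) * (SS η (k + 1)).card ^ lev k (SS η (k + 1)).card (aa η k)
  have h4 : (aa η (k + 1) : ℝ) ≤ ((⌈η * aa η k⌉₊ + 1 + c : ℕ) : ℝ) := by exact_mod_cast h1
  have h5 : ((k : ℝ) + 1) * c ≤ aa η k := by exact_mod_cast h3
  have h6 : (c : ℝ) ≤ aa η k / (k + 1) := by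
    rw [le_div_iff₀ (by positivity)]; linarith
  push_cast at h4
  linarith

lemma ratio (hη : 1 < η) : Tendsto (fun k => (aa η (k + 1) : ℝ) / aa η k) atTop (𝓝 η) := by
  have h1 : Tendsto (fun k : ℕ => 3 / ((k : ℝ) + 1)) atTop (𝓝 0) := by
    have := (tendsto_one_div_add_atTop_nhds_zero_nat (𝕜 := ℝ)).const_mul 3
    simpa [div_eq_mul_inv] using this
  have h2 : Tendsto (fun k : ℕ => η + 3 / ((k : ℝ) + 1)) atTop (𝓝 (η + 0)) := h1.const_add η
  rw [add_zero] at h2
  refine tendsto_of_tendsto_of_tendsto_of_le_of_le tendsto_const_nhds h2 ?_ ?_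
  · intro k
    have hp : (0:ℝ) < aa η k := by
      have := aa_ge hη k
      have : 0 < aa η k := by omega
      exact_mod_cast this
    simp only
    rw [le_div_iff₀ hp]
    linarith [aa_lower (η := η) k]
  · intro k
    have hk := aa_ge hη k
    have hp : ((k : ℝ) + 1) ≤ aa η k := by exact_mod_cast hk
    have hk0 : (0:ℝ) < (k : ℝ) + 1 := by positivity
    simp only
    rw [div_le_iff₀ (by linarith)]
    have h3 := aa_upper hη k
    have h4 : 2 ≤ 2 / ((k : ℝ) + 1) * aa η k := by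
      rw [div_mul_eq_mul_div, le_div_iff₀ hk0]; linarith
    have h5 : (η + 3 / ((k : ℝ) + 1)) * aa η k = η * aa η k + 2 / ((k : ℝ) + 1) * aa η k + aa η k / (k + 1) := by
      field_simp; ring
    rw [h5]
    linarith

lemma lv_large (hη : 1 < η) (m : ℕ) : ∃ K0, ∀ k, K0 ≤ k → m ≤ lv η k := by
  have h1 := tendsto_pow_const_div_const_pow_of_one_lt (m + 1) hη
  obtain ⟨K, hK⟩ := Metric.tendsto_atTop.1 h1 (1 / ((m + 1) * 5 ^ (m + 1))) (by positivity)
  refine ⟨max K (m + 1), fun k hk => ?_⟩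
  have hk1 : 1 ≤ k := by omega
  have h2 := hK k (by omega)
  rw [Real.dist_eq, sub_zero, abs_of_nonneg (by positivity)] at h2
  rw [div_lt_div_iff₀ (by positivity) (by positivity)] at h2
  have h3 := aa_exp hη k
  have hc := SS_card η (k + 1)
  apply le_lev (by omega)
  have h4 : (k + 1) * (m * (SS η (k + 1)).card ^ m) ≤ (m + 1) * 5 ^ (m + 1) * k ^ (m + 1) := by
    have h5 : (SS η (k + 1)).card ^ m ≤ (5 * k) ^ m := Nat.pow_le_pow_left (by omega) m
    calc (k + 1) * (m * (SS η (k + 1)).card ^ m) ≤ (5 * k) * ((m + 1) * (5 * k) ^ m) := by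
          apply Nat.mul_le_mul (by omega)
          exact Nat.mul_le_mul (by omega) h5
      _ = _ := by rw [mul_pow, pow_succ, pow_succ]; ring
  have h6 : (((m + 1) * 5 ^ (m + 1) * k ^ (m + 1) : ℕ) : ℝ) ≤ aa η k := by
    push_cast
    linarith
  have h7 : (m + 1) * 5 ^ (m + 1) * k ^ (m + 1) ≤ aa η k := by exact_mod_cast h6
  exact h4.trans h7

theorem step_eq (hη : 1 < η) (m : ℕ) : ∃ N0, ∀ n, N0 ≤ n →
    kappa m (Sn (aa η) (n + 1)) = kappa m (Sn (aa η) n) + kappa m (fun w => Real.cos (2 * Real.pi * w)) := by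
  obtain ⟨K0, hK0⟩ := lv_large hη m
  refine ⟨K0 + 1, fun n hn => ?_⟩
  obtain ⟨k, rfl⟩ : ∃ k, n = k + 1 := ⟨n - 1, by omega⟩
  have hk := hK0 k (by omega)
  obtain ⟨-, -, h3⟩ := nxt_spec η k (SS η (k + 1)) (aa η k)
  rw [← aa_succ] at h3
  have h4 := kappa_step (SS_zero_mem η (k + 1)) (SS_neg η (k + 1)) (Sn_mem η (k + 1)) (m := m)
    (a := aa η (k + 1)) (by
      intro l h1 h2 b hb
      exact h3 l h1 (h2.trans hk) b (sums_mono (SS_zero_mem η (k + 1)) hk hb))
  rw [← h4]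
  congr 1
  funext w
  simp only [Sn]
  rw [Finset.sum_range_succ _ (k + 1)]

theorem eventually_eq (hη : 1 < η) (m : ℕ) : ∃ c : ℝ, ∃ N0, ∀ n, N0 ≤ n →
    kappa m (Sn (aa η) n) = n * kappa m (fun w => Real.cos (2 * Real.pi * w)) + c := by
  obtain ⟨N0, h⟩ := step_eq hη m
  refine ⟨kappa m (Sn (aa η) N0) - N0 * kappa m (fun w => Real.cos (2 * Real.pi * w)), N0, ?_⟩
  intro n hn
  induction n, hn using Nat.le_induction with
  | base => ring
  | succ n hn ih =>
    rw [h n hn, ih]; push_cast; ring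

theorem limit (hη : 1 < η) (m : ℕ) : Tendsto (fun n : ℕ => kappa m (Sn (aa η) n) / n) atTop
    (𝓝 (kappa m (fun w => Real.cos (2 * Real.pi * w)))) := by
  obtain ⟨c, N0, h⟩ := eventually_eq hη m
  have h1 : Tendsto (fun n : ℕ => kappa m (fun w => Real.cos (2 * Real.pi * w)) + c / (n : ℝ)) atTop
      (𝓝 (kappa m (fun w => Real.cos (2 * Real.pi * w)) + 0)) :=
    (tendsto_const_div_atTop_nhds_zero_nat c).const_add _
  rw [add_zero] at h1
  refine h1.congr' ?_
  filter_upwards [eventually_ge_atTop (max N0 1)] with n hn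
  have hn0 : (n : ℝ) ≠ 0 := by
    have : n ≠ 0 := by omega
    exact_mod_cast this
  rw [h n (by omega), add_div, mul_div_cancel_left₀ _ hn0]

end Pool.Agent.R357.LS
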