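import Pool.Agent.R357.LS.Cum

/-!
Even trigonometric polynomials with prescribed frequencies, and the factorisation of moments.
-/

set_option autoImplicit false

open MeasureTheory Set Filter
open scoped Topology

namespace Pool.Agent.R357.LS

/-- even trigonometric polynomials with frequencies in `B` -/
noncomputable def T (B : Set ℤ) : Submodule ℝ (ℝ → ℝ) :=
  Submodule.span ℝ ((fun b : ℤ => fun w : ℝ => Real.cos (2 * Real.pi * b * w)) '' B)

lemma T_mono {B C : Set ℤ} (h : B ⊆ C) : T B ≤ T C := Submodule.span_mono (image_mono h)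

lemma T_basic {B : Set ℤ} {b : ℤ} (h : b ∈ B) : (fun w : ℝ => Real.cos (2 * Real.pi * b * w)) ∈ T B :=
  Submodule.subset_span ⟨b, h, rfl⟩

lemma T_mul {B C D : Set ℤ} (h : ∀ b ∈ B, ∀ c ∈ C, b + c ∈ D ∧ b - c ∈ D) {f g : ℝ → ℝ}
    (hf : f ∈ T B) (hg : g ∈ T C) : f * g ∈ T D := by
  induction hf using Submodule.span_induction with
  | zero => rw [zero_mul]; exact Submodule.zero_mem _
  | add x y _ _ hx hy => rw [add_mul]; exact Submodule.add_mem _ hx hy
  | smul a x _ hx => rw [smul_mul_assoc]; exact Submodule.smul_mem _ _ hx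
  | mem x hx =>
    obtain ⟨b, hb, rfl⟩ := hx
    induction hg using Submodule.span_induction with
    | zero => rw [mul_zero]; exact Submodule.zero_mem _
    | add x y _ _ hx hy => rw [mul_add]; exact Submodule.add_mem _ hx hy
    | smul a x _ hx => rw [mul_smul_comm]; exact Submodule.smul_mem _ _ hx
    | mem x hx =>
      obtain ⟨c, hc, rfl⟩ := hx
      obtain ⟨h1, h2⟩ := h b hb c hc
      have e : ((fun w : ℝ => Real.cos (2 * Real.pi * b * w)) * fun w : ℝ => Real.cos (2 * Real.pi * c * w)) =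
          (1 / 2 : ℝ) • (fun w : ℝ => Real.cos (2 * Real.pi * (b + c : ℤ) * w)) +
          (1 / 2 : ℝ) • (fun w : ℝ => Real.cos (2 * Real.pi * (b - c : ℤ) * w)) := by
        funext w
        simp only [Pi.mul_apply, Pi.add_apply, Pi.smul_apply, smul_eq_mul]
        push_cast
        rw [show 2 * Real.pi * ((b:ℝ) + c) * w = 2 * Real.pi * b * w + 2 * Real.pi * c * w by ring,
          show 2 * Real.pi * ((b:ℝ) - c) * w = 2 * Real.pi * b * w - 2 * Real.pi * c * w by ring,
          Real.cos_add, Real.cos_sub]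
        ring
      simp only at e ⊢
      rw [e]
      exact Submodule.add_mem _ (Submodule.smul_mem _ _ (T_basic h1)) (Submodule.smul_mem _ _ (T_basic h2))

lemma T_cont {B : Set ℤ} {f : ℝ → ℝ} (hf : f ∈ T B) : Continuous f := by
  induction hf using Submodule.span_induction with
  | zero => exact continuous_const
  | add x y _ _ hx hy => exact hx.add hy
  | smul a x _ hx => exact hx.const_smul a
  | mem x hx =>
    obtain ⟨b, hb, rfl⟩ := hx
    fun_prop

lemma int_cont {f : ℝ → ℝ} (hf : Continuous f) : IntegrableOn f (Icc (0:ℝ) 1) := hf.continuousOn.integrableOn_Icc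

lemma int_cos {b : ℤ} (hb : b ≠ 0) : ∫ w in Icc (0:ℝ) 1, Real.cos (2 * Real.pi * b * w) = 0 := by
  rw [integral_Icc_eq_integral_Ioc, ← intervalIntegral.integral_of_le zero_le_one]
  have hc : (2 * Real.pi * b) ≠ 0 := by
    have : (b:ℝ) ≠ 0 := by exact_mod_cast hb
    have := Real.pi_ne_zero
    positivity
  rw [intervalIntegral.integral_comp_mul_left (fun x => Real.cos x) hc, integral_cos]
  have : Real.sin (2 * Real.pi * b * 1) = 0 := by
    rw [mul_one, show 2 * Real.pi * (b:ℝ) = ((2 * b : ℤ) : ℝ) * Real.pi by push_cast; ring]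
    exact Real.sin_int_mul_pi _
  rw [this]
  simp

lemma T_int {B : Set ℤ} (hB : (0:ℤ) ∉ B) {f : ℝ → ℝ} (hf : f ∈ T B) : ∫ w in Icc (0:ℝ) 1, f w = 0 := by
  have : Continuous f ∧ ∫ w in Icc (0:ℝ) 1, f w = 0 := by
    refine ⟨T_cont hf, ?_⟩
    induction hf using Submodule.span_induction with
    | zero => simp
    | add x y hx' hy' hx hy =>
      simp only [Pi.add_apply]
      rw [integral_add (int_cont (T_cont hx')) (int_cont (T_cont hy')), hx, hy, add_zero]
    | smul a x _ hx =>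
      simp only [Pi.smul_apply]
      rw [integral_smul, hx, smul_zero]
    | mem x hx =>
      obtain ⟨b, hb, rfl⟩ := hx
      exact int_cos (by rintro rfl; exact hB hb)
  exact this.2

/-- the nonzero frequencies up to `j` -/
def Hs (j : ℕ) (a : ℤ) : Set ℤ := {z | ∃ l : ℤ, l ≠ 0 ∧ |l| ≤ j ∧ z = l * a}

lemma cos_pow_mem (j : ℕ) : (fun w : ℝ => Real.cos (2 * Real.pi * w) ^ j) ∈ T {l : ℤ | |l| ≤ j} := by
  induction j with
  | zero =>
    have : (fun w : ℝ => Real.cos (2 * Real.pi * w) ^ 0) = fun w : ℝ => Real.cos (2 * Real.pi * (0:ℤ) * w) := by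
      funext w; simp
    rw [this]
    exact T_basic (by simp)
  | succ j ih =>
    have h1 : (fun w : ℝ => Real.cos (2 * Real.pi * w)) ∈ T {(1:ℤ)} := by
      have : (fun w : ℝ => Real.cos (2 * Real.pi * w)) = fun w : ℝ => Real.cos (2 * Real.pi * (1:ℤ) * w) := by
        funext w; simp
      rw [this]
      exact T_basic rfl
    have h2 := T_mul (D := {l : ℤ | |l| ≤ ((j + 1 : ℕ) : ℤ)}) (by
      intro b hb c hc
      simp only [mem_ofPred_eq, mem_singleton_iff] at hb hc ⊢
      subst hc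
      push_cast
      rw [abs_le] at hb
      constructor <;> rw [abs_le] <;> constructor <;> linarith [hb.1, hb.2]) ih h1
    have e : (fun w : ℝ => Real.cos (2 * Real.pi * w) ^ (j + 1)) =
        (fun w : ℝ => Real.cos (2 * Real.pi * w) ^ j) * fun w : ℝ => Real.cos (2 * Real.pi * w) := by
      funext w; simp [pow_succ]
    rw [e]
    exact h2

/-- the moments of the arcsine law -/
noncomputable def ee (j : ℕ) : ℝ := ∫ w in Icc (0:ℝ) 1, Real.cos (2 * Real.pi * w) ^ j

lemma scale_mem {j : ℕ} {z : ℝ → ℝ} (hz : z ∈ T (Hs j 1)) (a : ℤ) : (fun w : ℝ => z (a * w)) ∈ T (Hs j a) := by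
  induction hz using Submodule.span_induction with
  | zero => exact Submodule.zero_mem _
  | add x y _ _ hx hy =>
    exact Submodule.add_mem _ hx hy
  | smul a x _ hx =>
    exact Submodule.smul_mem _ _ hx
  | mem x hx =>
    obtain ⟨b, ⟨l, hb, hb2, rfl⟩, rfl⟩ := hx
    have : (fun w : ℝ => (fun w : ℝ => Real.cos (2 * Real.pi * ((l * 1 : ℤ) : ℝ) * w)) (a * w)) =
        fun w : ℝ => Real.cos (2 * Real.pi * ((l * a : ℤ) : ℝ) * w) := by
      funext w
      push_cast
      ring_nf
    rw [this]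
    exact T_basic ⟨l, hb, hb2, rfl⟩

lemma cos_pow_sub (j : ℕ) (a : ℤ) : (fun w : ℝ => Real.cos (2 * Real.pi * a * w) ^ j - ee j) ∈ T (Hs j a) := by
  have h0 : {l : ℤ | |l| ≤ j} = insert 0 (Hs j 1) := by
    ext l
    simp only [Hs, mem_ofPred_eq, mem_insert_iff, mul_one]
    constructor
    · intro h
      by_cases h0 : l = 0
      · exact Or.inl h0
      · exact Or.inr ⟨l, h0, h, rfl⟩
    · rintro (rfl | ⟨l', h1, h2, rfl⟩)
      · simp
      · exact h2
  have h1 := cos_pow_mem j
  rw [h0] at h1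
  unfold T at h1
  rw [image_insert_eq, Submodule.mem_span_insert] at h1
  obtain ⟨c, z, hz, e⟩ := h1
  have hz' : z ∈ T (Hs j 1) := hz
  have e1 : ∀ w : ℝ, Real.cos (2 * Real.pi * w) ^ j = c + z w := by
    intro w
    have := congrFun e w
    simpa using this
  have hc : ee j = c := by
    unfold ee
    simp_rw [e1]
    rw [integral_add (int_cont continuous_const) (int_cont (T_cont hz')), T_int _ hz']
    · simp
    · rintro ⟨l, h1, h2, h3⟩
      exact h1 (by linarith)
  have h2 := scale_mem hz' a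
  have e2 : (fun w : ℝ => Real.cos (2 * Real.pi * a * w) ^ j - ee j) = fun w : ℝ => z (a * w) := by
    funext w
    have := e1 (a * w)
    rw [← mul_assoc] at this
    rw [this, hc]; ring
  rw [e2]
  exact h2

lemma factor {B : Set ℤ} {f : ℝ → ℝ} (hf : f ∈ T B) (a : ℤ) (j : ℕ)
    (hres : ∀ l : ℤ, l ≠ 0 → |l| ≤ j → ∀ b ∈ B, b + l * a ≠ 0) :
    ∫ w in Icc (0:ℝ) 1, f w * Real.cos (2 * Real.pi * a * w) ^ j = (∫ w in Icc (0:ℝ) 1, f w) * ee j := by
  have h1 := T_mul (D := {z : ℤ | ∃ l : ℤ, l ≠ 0 ∧ |l| ≤ j ∧ ∃ b ∈ B, z = b + l * a}) (by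
    rintro b hb c ⟨l, h1, h2, rfl⟩
    refine ⟨⟨l, h1, h2, b, hb, rfl⟩, ⟨-l, neg_ne_zero.2 h1, by rwa [abs_neg], b, hb, by ring⟩⟩)
    hf (cos_pow_sub j a)
  have h2 := T_int (by
    rintro ⟨l, h1, h2, b, hb, h3⟩
    exact hres l h1 h2 b hb h3.symm) h1
  have hfc := T_cont hf
  have e : ∀ w, f w * Real.cos (2 * Real.pi * a * w) ^ j =
      (f * fun w : ℝ => Real.cos (2 * Real.pi * a * w) ^ j - ee j) w + f w * ee j := by
    intro w
    simp only [Pi.mul_apply]
    ring
  simp_rw [e]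
  have hi1 := int_cont (T_cont h1)
  have hi2 : IntegrableOn (fun w => f w * ee j) (Icc (0:ℝ) 1) := int_cont (hfc.mul continuous_const)
  have h3 := integral_add hi1 hi2
  rw [h2, zero_add, integral_mul_const] at h3
  exact h3

/-- the `p`-fold sums of elements of a finite set -/
def sums (S : Finset ℤ) : ℕ → Finset ℤ
  | 0 => {0}
  | p + 1 => Finset.image₂ (· + ·) (sums S p) S

lemma sums_card (S : Finset ℤ) (p : ℕ) : (sums S p).card ≤ S.card ^ p := by
  induction p with
  | zero => simp [sums]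
  | succ p ih =>
    rw [sums, pow_succ]
    exact (Finset.card_image₂_le _ _ _).trans (Nat.mul_le_mul_right _ ih)

lemma sums_mono {S : Finset ℤ} (h0 : (0:ℤ) ∈ S) {p r : ℕ} (h : p ≤ r) : sums S p ⊆ sums S r := by
  induction r, h using Nat.le_induction with
  | base => exact Finset.Subset.refl _
  | succ r _ ih =>
    intro z hz
    rw [sums, Finset.mem_image₂]
    exact ⟨z, ih hz, 0, h0, add_zero z⟩

lemma sums_neg {S : Finset ℤ} (hS : ∀ z ∈ S, -z ∈ S) (p : ℕ) : ∀ z ∈ sums S p, -z ∈ sums S p := by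
  induction p with
  | zero => simp [sums]
  | succ p ih =>
    intro z hz
    rw [sums, Finset.mem_image₂] at hz ⊢
    obtain ⟨x, hx, y, hy, rfl⟩ := hz
    exact ⟨-x, ih x hx, -y, hS y hy, by ring⟩

lemma pow_mem {S : Finset ℤ} (hS : ∀ z ∈ S, -z ∈ S) {f : ℝ → ℝ} (hf : f ∈ T (S : Set ℤ)) (p : ℕ) :
    (fun w => f w ^ p) ∈ T (sums S p : Set ℤ) := by
  induction p with
  | zero =>
    have : (fun w : ℝ => f w ^ 0) = fun w : ℝ => Real.cos (2 * Real.pi * (0:ℤ) * w) := by
      funext w; simp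
    rw [this]
    exact T_basic (by simp [sums])
  | succ p ih =>
    have h2 := T_mul (D := (sums S (p + 1) : Set ℤ)) (by
      intro b hb c hc
      rw [Finset.mem_coe] at hb hc ⊢
      rw [Finset.mem_coe, sums, Finset.mem_image₂, Finset.mem_image₂]
      exact ⟨⟨b, hb, c, hc, rfl⟩, ⟨b, hb, -c, hS c hc, by ring⟩⟩) ih hf
    have e : (fun w : ℝ => f w ^ (p + 1)) = (fun w => f w ^ p) * f := by
      funext w; simp [pow_succ]
    rw [e]
    exact h2

/-- one step: additivity of cumulants when there is no short relation -/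
lemma kappa_step {S : Finset ℤ} (h0 : (0:ℤ) ∈ S) (hS : ∀ z ∈ S, -z ∈ S) {f : ℝ → ℝ} (hf : f ∈ T (S : Set ℤ))
    {m : ℕ} {a : ℕ} (hNR : ∀ l : ℕ, 1 ≤ l → l ≤ m → ∀ b ∈ sums S m, (l : ℤ) * a ≠ b) :
    kappa m (fun w => f w + Real.cos (2 * Real.pi * a * w)) =
      kappa m f + kappa m (fun w => Real.cos (2 * Real.pi * w)) := by
  have hfc := T_cont hf
  have hNR' : ∀ l : ℤ, l ≠ 0 → |l| ≤ m → ∀ b ∈ sums S m, b + l * a ≠ 0 := by
    intro l hl hlm b hb he
    rcases lt_or_gt_of_ne hl with h | h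
    · obtain ⟨k, hk⟩ := Int.eq_ofNat_of_zero_le (show 0 ≤ -l by omega)
      rw [abs_of_neg h, hk] at hlm
      refine hNR k (by omega) (by exact_mod_cast hlm) b hb ?_
      rw [← hk]; linarith
    · obtain ⟨k, hk⟩ := Int.eq_ofNat_of_zero_le h.le
      rw [abs_of_pos h, hk] at hlm
      refine hNR k (by omega) (by exact_mod_cast hlm) (-b) (sums_neg hS m b hb) ?_
      rw [← hk]; linarith
  apply kappa_add hfc (by fun_prop) (by fun_prop)
  intro r hr
  have e : ∀ w, (f w + Real.cos (2 * Real.pi * a * w)) ^ r = ∑ i ∈ Finset.range (r + 1),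
      (r.choose i : ℝ) * (f w ^ i * Real.cos (2 * Real.pi * (a : ℤ) * w) ^ (r - i)) := by
    intro w
    rw [add_pow]
    refine Finset.sum_congr rfl fun i _ => ?_
    rw [Int.cast_natCast]
    ring
  simp_rw [e]
  rw [integral_finsetSum]
  · refine Finset.sum_congr rfl fun i hi => ?_
    rw [Finset.mem_range] at hi
    rw [integral_const_mul, factor (pow_mem hS hf i) a (r - i), mul_assoc]
    · rfl
    · intro l h1 h2 b hb
      refine hNR' l h1 (h2.trans ?_) b (sums_mono h0 (by omega) (Finset.mem_coe.1 hb))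
      have : r - i ≤ m := by omega
      exact_mod_cast this
  · intro i _
    exact int_cont (by fun_prop)

end Pool.Agent.R357.LS
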